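import Mathlib
import Pool.Agent.N290.RI.Stm

/-!
# RI/S1 (helper755 for helper290): one Moebius step
-/

set_option autoImplicit false

open Complex MeasureTheory Set Filter Topology

namespace Pool.Agent.N755.RI

open Pool.Agent.N290.RI

/-- the identity -/
theorem ident {v Q Qc P0 P1 g ca cb bv bP cdQ D i s : ℂ} (hD : D = 1 + Qc * v * s)
    (hDi : D * i = 1) :
    ((bv + (bP * g + P1 * (cb - ca))) * D - (v + Q) * ((cdQ * v + Qc * bv) * s)) * i ^ 2 -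
      P1 * cb =
    ((1 - Q * Qc * s) * i ^ 2) * (bv - P0 * ca) + ((1 - Q * Qc * s) * i ^ 2 - 1) * (P0 * ca) +
    (P0 - P1) * ca + (i - 1) * (bP * g + P1 * (cb - ca)) + bP * g -
      (v + Q) * v * s * i ^ 2 * cdQ := by
  linear_combination (bv * i ^ 2) * hD + ((bP * g + P1 * (cb - ca)) * i) * hDi

theorem bnd {D i : ℂ} {q : ℝ} (hq0 : 0 ≤ q) (hq : q ≤ 1 / 128) (hD1 : ‖D - 1‖ ≤ q)
    (hDi : D * i = 1) : ‖(1 - (q : ℂ) ^ 2) * i ^ 2‖ ≤ 1 + 4 * q ∧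
    ‖(1 - (q : ℂ) ^ 2) * i ^ 2 - 1‖ ≤ 3 * q ∧ ‖i - 1‖ ≤ 2 * q ∧ ‖i‖ ^ 2 * (1 + q) ≤ 2 := by
  have h1 : 1 - q ≤ ‖D‖ := by
    have h := norm_sub_norm_le (1 : ℂ) D
    rw [norm_one, norm_sub_rev] at h
    linarith
  have h2 : ‖D‖ * ‖i‖ = 1 := by rw [← norm_mul, hDi, norm_one]
  obtain ⟨j, hj⟩ : ∃ j : ℝ, j = ‖i‖ := ⟨_, rfl⟩
  rw [← hj] at h2
  have hj0 : 0 ≤ j := by rw [hj]; exact norm_nonneg _
  have h3 : (1 - q) * j ≤ 1 := by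
    have h := mul_le_mul_of_nonneg_right h1 hj0
    linarith
  have h30 : 0 ≤ (1 - q) * j := mul_nonneg (by linarith) hj0
  have h4 : ((1 - q) * j) ^ 2 ≤ 1 := by nlinarith
  have hj2 : 0 ≤ j ^ 2 := sq_nonneg j
  have hnq : ‖(1 : ℂ) - (q : ℂ) ^ 2‖ = 1 - q ^ 2 := by
    have e : (1 : ℂ) - (q : ℂ) ^ 2 = ((1 - q ^ 2 : ℝ) : ℂ) := by push_cast; ring
    rw [e, Complex.norm_real, Real.norm_of_nonneg]
    nlinarith
  refine ⟨?_, ?_, ?_, ?_⟩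
  · rw [norm_mul, norm_pow, ← hj, hnq]
    have e : (1 + 4 * q) - (1 - q ^ 2) * j ^ 2 = (1 + 4 * q) * (1 - ((1 - q) * j) ^ 2) +
        2 * q * ((1 - q) * (1 - 2 * q)) * j ^ 2 := by ring
    have h5 : 0 ≤ (1 + 4 * q) * (1 - ((1 - q) * j) ^ 2) := mul_nonneg (by linarith) (by linarith)
    have h6 : 0 ≤ 2 * q * ((1 - q) * (1 - 2 * q)) * j ^ 2 :=
      mul_nonneg (mul_nonneg (by linarith) (mul_nonneg (by linarith) (by linarith))) hj2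
    linarith
  · have e1 : (1 - (q : ℂ) ^ 2) * i ^ 2 - 1 = (-((q : ℂ) ^ 2) - (D - 1) * ((D - 1) + 2)) * i ^ 2 := by
      linear_combination (D * i + 1) * hDi
    rw [e1, norm_mul, norm_pow, ← hj]
    have h5 : ‖-((q : ℂ) ^ 2) - (D - 1) * ((D - 1) + 2)‖ ≤ 2 * q + 2 * q ^ 2 := by
      refine (norm_sub_le _ _).trans ?_
      rw [norm_neg, norm_pow, Complex.norm_real, Real.norm_of_nonneg hq0, norm_mul]
      have h6 : ‖(D - 1) + 2‖ ≤ q + 2 := by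
        refine (norm_add_le _ _).trans ?_
        have : ‖(2 : ℂ)‖ = 2 := by simp
        rw [this]
        linarith
      have h7 := mul_le_mul hD1 h6 (norm_nonneg _) hq0
      nlinarith
    have h8 := mul_le_mul_of_nonneg_right h5 hj2
    refine h8.trans ?_
    have e : 3 * q - (2 * q + 2 * q ^ 2) * j ^ 2 = 3 * q * (1 - ((1 - q) * j) ^ 2) +
        q * j ^ 2 * (1 - 8 * q + 3 * q ^ 2) := by ring
    have h9 : 0 ≤ 3 * q * (1 - ((1 - q) * j) ^ 2) := mul_nonneg (by linarith) (by linarith)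
    have h10 : 0 ≤ q * j ^ 2 * (1 - 8 * q + 3 * q ^ 2) :=
      mul_nonneg (mul_nonneg hq0 hj2) (by nlinarith)
    linarith
  · have e1 : i - 1 = -(D - 1) * i := by linear_combination hDi
    rw [e1, norm_mul, norm_neg, ← hj]
    have hjle : j ≤ 2 := by nlinarith
    calc ‖D - 1‖ * j ≤ q * 2 := mul_le_mul hD1 hjle hj0 hq0
      _ = 2 * q := mul_comm _ _
  · rw [← hj]
    have e : 2 - j ^ 2 * (1 + q) = 2 * (1 - ((1 - q) * j) ^ 2) + j ^ 2 * (1 - 5 * q + 2 * q ^ 2) := by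
      ring
    have h9 : 0 ≤ j ^ 2 * (1 - 5 * q + 2 * q ^ 2) := mul_nonneg hj2 (by nlinarith)
    linarith

theorem moebius {R : ℝ} (hR : 0 < R) {v Q : ℂ} (hv : ‖v‖ ≤ R) (hQ : ‖Q‖ ≤ R)
    (hD : 1 + starRingEnd ℂ Q * v / (R : ℂ) ^ 2 ≠ 0) :
    ‖(v + Q) / (1 + starRingEnd ℂ Q * v / (R : ℂ) ^ 2)‖ ≤ R := by
  have hRc : (R : ℂ) ≠ 0 := by exact_mod_cast hR.ne'
  rw [norm_div, div_le_iff₀ (norm_pos_iff.2 hD)]
  have h1 : ‖(R : ℂ) ^ 2 + starRingEnd ℂ Q * v‖ ^ 2 - R ^ 2 * ‖v + Q‖ ^ 2 =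
      (R ^ 2 - ‖v‖ ^ 2) * (R ^ 2 - ‖Q‖ ^ 2) := by
    have e : (R : ℂ) ^ 2 = ((R ^ 2 : ℝ) : ℂ) := by push_cast; ring
    rw [e]
    simp only [Complex.sq_norm, Complex.normSq_apply, Complex.add_re, Complex.add_im,
      Complex.mul_re, Complex.mul_im, Complex.conj_re, Complex.conj_im, Complex.ofReal_re,
      Complex.ofReal_im]
    ring
  have h2 : 0 ≤ (R ^ 2 - ‖v‖ ^ 2) * (R ^ 2 - ‖Q‖ ^ 2) := by
    have h3 := pow_le_pow_left₀ (norm_nonneg v) hv 2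
    have h4 := pow_le_pow_left₀ (norm_nonneg Q) hQ 2
    exact mul_nonneg (by linarith) (by linarith)
  have h3 : (R * ‖v + Q‖) ^ 2 ≤ ‖(R : ℂ) ^ 2 + starRingEnd ℂ Q * v‖ ^ 2 := by
    rw [mul_pow]
    linarith
  have h4 := abs_le_of_sq_le_sq h3 (norm_nonneg _)
  have h5 : R * ‖v + Q‖ ≤ ‖(R : ℂ) ^ 2 + starRingEnd ℂ Q * v‖ := (abs_le.1 h4).2
  have h6 : (R : ℂ) ^ 2 + starRingEnd ℂ Q * v =
      (R : ℂ) ^ 2 * (1 + starRingEnd ℂ Q * v / (R : ℂ) ^ 2) := by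
    field_simp
  rw [h6, norm_mul, norm_pow, Complex.norm_real, Real.norm_of_nonneg hR.le, sq, mul_assoc] at h5
  exact le_of_mul_le_mul_left h5 hR

/-- the estimate for complex numbers -/
theorem numb (C₁ p : ℝ) {v P0 P1 G a b bv bP dP Q D : ℂ} (hC : 0 < C₁) (hv : ‖v‖ ≤ 256 * C₁)
    (hP0 : ‖P0‖ ≤ C₁) (hP1 : ‖P1‖ ≤ C₁) (hG : ‖G‖ ≤ 2) (hbP : ‖bP‖ ≤ p) (hdP : ‖dP‖ ≤ p)
    (hQ : Q = P1 * starRingEnd ℂ G)
    (hD : D = 1 + starRingEnd ℂ Q * v / (256 * C₁ : ℂ) ^ 2) :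
    ‖(v + Q) / D‖ ≤ 256 * C₁ ∧ D ≠ 0 ∧
    ‖((bv + (bP * starRingEnd ℂ G + P1 * (starRingEnd ℂ b - starRingEnd ℂ a))) * D -
      (v + Q) * ((starRingEnd ℂ (dP * starRingEnd ℂ G) * v + starRingEnd ℂ Q * bv) /
        (256 * C₁ : ℂ) ^ 2)) / D ^ 2 - P1 * starRingEnd ℂ b‖ ≤
      (1 + ‖G‖ / 64) * ‖bv - P0 * starRingEnd ℂ a‖ +
      ‖G‖ * (C₁ * (‖a‖ + ‖b‖) + 4 * p) + ‖P0 - P1‖ * ‖a‖ := by
  obtain ⟨R, hR⟩ : ∃ R : ℝ, R = 256 * C₁ := ⟨_, rfl⟩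
  have hR0 : 0 < R := by rw [hR]; positivity
  have hRc : (256 * C₁ : ℂ) = (R : ℂ) := by rw [hR]; push_cast; ring
  have hRc0 : (R : ℂ) ≠ 0 := by exact_mod_cast hR0.ne'
  rw [hRc] at hD ⊢
  rw [← hR] at hv ⊢
  have hp : 0 ≤ p := (norm_nonneg _).trans hbP
  have hQn : ‖Q‖ ≤ C₁ * ‖G‖ := by
    rw [hQ, norm_mul, RCLike.norm_conj]
    exact mul_le_mul_of_nonneg_right hP1 (norm_nonneg _)
  obtain ⟨q, hq⟩ : ∃ q : ℝ, q = ‖Q‖ / R := ⟨_, rfl⟩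
  have hq0 : 0 ≤ q := by rw [hq]; positivity
  have hqQ : ‖Q‖ = q * R := by rw [hq]; field_simp
  have hqd : q ≤ ‖G‖ / 256 := by
    rw [hq, div_le_div_iff₀ hR0 (by norm_num), hR]
    nlinarith
  have hq1 : q ≤ 1 / 128 := by linarith
  have hD1 : ‖D - 1‖ ≤ q := by
    have e : D - 1 = starRingEnd ℂ Q * v / (R : ℂ) ^ 2 := by rw [hD]; ring
    rw [e, norm_div, norm_mul, RCLike.norm_conj, norm_pow, Complex.norm_real,
      Real.norm_of_nonneg hR0.le, div_le_iff₀ (by positivity), hqQ]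
    have : q * R * ‖v‖ ≤ q * R * R := mul_le_mul_of_nonneg_left hv (by positivity)
    linarith
  have hD0 : D ≠ 0 := by
    intro h
    rw [h, zero_sub, norm_neg, norm_one] at hD1
    linarith
  obtain ⟨i, hi⟩ : ∃ i : ℂ, i = D⁻¹ := ⟨_, rfl⟩
  have hDi : D * i = 1 := by rw [hi]; exact mul_inv_cancel₀ hD0
  obtain ⟨s, hs⟩ : ∃ s : ℂ, s = ((R : ℂ) ^ 2)⁻¹ := ⟨_, rfl⟩
  have hDs : D = 1 + starRingEnd ℂ Q * v * s := by rw [hD, hs, div_eq_mul_inv]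
  have hQs : Q * starRingEnd ℂ Q * s = (q : ℂ) ^ 2 := by
    rw [Complex.mul_conj, Complex.normSq_eq_norm_sq, hqQ, hs]
    push_cast
    field_simp
  obtain ⟨b1, b2, b3, b4⟩ := bnd hq0 hq1 hD1 hDi
  refine ⟨?_, hD0, ?_⟩
  · rw [hD] at hD0 ⊢
    refine moebius hR0 hv ?_ hD0
    rw [hqQ]
    nlinarith
  have e1 : ((bv + (bP * starRingEnd ℂ G + P1 * (starRingEnd ℂ b - starRingEnd ℂ a))) * D -
      (v + Q) * ((starRingEnd ℂ (dP * starRingEnd ℂ G) * v + starRingEnd ℂ Q * bv) /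
        (R : ℂ) ^ 2)) / D ^ 2 - P1 * starRingEnd ℂ b =
      ((bv + (bP * starRingEnd ℂ G + P1 * (starRingEnd ℂ b - starRingEnd ℂ a))) * D -
      (v + Q) * ((starRingEnd ℂ (dP * starRingEnd ℂ G) * v + starRingEnd ℂ Q * bv) * s)) * i ^ 2 -
      P1 * starRingEnd ℂ b := by
    rw [hi, hs, inv_pow, div_eq_mul_inv, div_eq_mul_inv]
  rw [e1, ident (P0 := P0) hDs hDi, hQs]
  have c1 : ‖(1 - (q : ℂ) ^ 2) * i ^ 2 * (bv - P0 * starRingEnd ℂ a)‖ ≤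
      (1 + 4 * q) * ‖bv - P0 * starRingEnd ℂ a‖ := by
    rw [norm_mul]
    exact mul_le_mul_of_nonneg_right b1 (norm_nonneg _)
  have c2 : ‖((1 - (q : ℂ) ^ 2) * i ^ 2 - 1) * (P0 * starRingEnd ℂ a)‖ ≤ 3 * q * (C₁ * ‖a‖) := by
    rw [norm_mul, norm_mul, RCLike.norm_conj]
    exact mul_le_mul b2 (mul_le_mul_of_nonneg_right hP0 (norm_nonneg _)) (by positivity)
      (by positivity)
  have c3 : ‖(P0 - P1) * starRingEnd ℂ a‖ = ‖P0 - P1‖ * ‖a‖ := by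
    rw [norm_mul, RCLike.norm_conj]
  have c4 : ‖bP * starRingEnd ℂ G‖ ≤ p * ‖G‖ := by
    rw [norm_mul, RCLike.norm_conj]
    exact mul_le_mul_of_nonneg_right hbP (norm_nonneg _)
  have c5 : ‖bP * starRingEnd ℂ G + P1 * (starRingEnd ℂ b - starRingEnd ℂ a)‖ ≤
      p * ‖G‖ + C₁ * (‖a‖ + ‖b‖) := by
    refine (norm_add_le _ _).trans (add_le_add c4 ?_)
    rw [norm_mul]
    refine mul_le_mul hP1 ?_ (norm_nonneg _) hC.le
    refine (norm_sub_le _ _).trans ?_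
    rw [RCLike.norm_conj, RCLike.norm_conj, add_comm]
  have c6 : ‖(i - 1) * (bP * starRingEnd ℂ G + P1 * (starRingEnd ℂ b - starRingEnd ℂ a))‖ ≤
      2 * q * (p * ‖G‖ + C₁ * (‖a‖ + ‖b‖)) := by
    rw [norm_mul]
    exact mul_le_mul b3 c5 (norm_nonneg _) (by positivity)
  have c7 : ‖(v + Q) * v * s * i ^ 2 * starRingEnd ℂ (dP * starRingEnd ℂ G)‖ ≤ 2 * (p * ‖G‖) := by
    rw [norm_mul]
    have d1 : ‖(v + Q) * v * s * i ^ 2‖ ≤ 2 := by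
      have hsn : ‖s‖ = (R ^ 2)⁻¹ := by
        rw [hs, norm_inv, norm_pow, Complex.norm_real, Real.norm_of_nonneg hR0.le]
      rw [norm_mul, norm_mul, norm_mul, norm_pow, hsn]
      have d2 : ‖v + Q‖ ≤ R * (1 + q) := by
        refine (norm_add_le _ _).trans ?_
        rw [hqQ]
        linarith
      have d3 : ‖v + Q‖ * ‖v‖ ≤ R * (1 + q) * R := mul_le_mul d2 hv (norm_nonneg _) (by positivity)
      have d4 : ‖v + Q‖ * ‖v‖ * (R ^ 2)⁻¹ ≤ 1 + q := by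
        have d5 := mul_le_mul_of_nonneg_right d3 (by positivity : (0 : ℝ) ≤ (R ^ 2)⁻¹)
        refine d5.trans (le_of_eq ?_)
        field_simp
      calc ‖v + Q‖ * ‖v‖ * (R ^ 2)⁻¹ * ‖i‖ ^ 2 ≤ (1 + q) * ‖i‖ ^ 2 :=
            mul_le_mul_of_nonneg_right d4 (by positivity)
        _ ≤ 2 := by linarith
    have d6 : ‖starRingEnd ℂ (dP * starRingEnd ℂ G)‖ ≤ p * ‖G‖ := by
      rw [RCLike.norm_conj, norm_mul, RCLike.norm_conj]
      exact mul_le_mul_of_nonneg_right hdP (norm_nonneg _)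
    exact mul_le_mul d1 d6 (norm_nonneg _) (by norm_num)
  have hd0 := norm_nonneg G
  have ha0 := norm_nonneg a
  have hb0 := norm_nonneg b
  have he0 := norm_nonneg (bv - P0 * starRingEnd ℂ a)
  have t1 : (1 + 4 * q) * ‖bv - P0 * starRingEnd ℂ a‖ ≤
      (1 + ‖G‖ / 64) * ‖bv - P0 * starRingEnd ℂ a‖ :=
    mul_le_mul_of_nonneg_right (by linarith) he0
  have t2 : 3 * q * (C₁ * ‖a‖) ≤ 3 * (‖G‖ / 256) * (C₁ * ‖a‖) :=
    mul_le_mul_of_nonneg_right (by linarith) (by positivity)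
  have t3 : 2 * q * (p * ‖G‖ + C₁ * (‖a‖ + ‖b‖)) ≤
      2 * (1 / 128) * (p * ‖G‖) + 2 * (‖G‖ / 256) * (C₁ * (‖a‖ + ‖b‖)) := by
    rw [mul_add]
    exact add_le_add (mul_le_mul_of_nonneg_right (by linarith) (by positivity))
      (mul_le_mul_of_nonneg_right (by linarith) (by positivity))
  have t4 : 0 ≤ ‖G‖ * (C₁ * ‖a‖) := by positivity
  have t5 : 0 ≤ ‖G‖ * (C₁ * ‖b‖) := by positivity
  have t6 : 0 ≤ ‖G‖ * p := by positivity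
  have n1 := norm_sub_le (((1 - (q : ℂ) ^ 2) * i ^ 2 * (bv - P0 * starRingEnd ℂ a)) +
    (((1 - (q : ℂ) ^ 2) * i ^ 2 - 1) * (P0 * starRingEnd ℂ a)) + (P0 - P1) * starRingEnd ℂ a +
    (i - 1) * (bP * starRingEnd ℂ G + P1 * (starRingEnd ℂ b - starRingEnd ℂ a)) +
    bP * starRingEnd ℂ G) ((v + Q) * v * s * i ^ 2 * starRingEnd ℂ (dP * starRingEnd ℂ G))
  have n2 := norm_add_le (((1 - (q : ℂ) ^ 2) * i ^ 2 * (bv - P0 * starRingEnd ℂ a)) +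
    (((1 - (q : ℂ) ^ 2) * i ^ 2 - 1) * (P0 * starRingEnd ℂ a)) + (P0 - P1) * starRingEnd ℂ a +
    (i - 1) * (bP * starRingEnd ℂ G + P1 * (starRingEnd ℂ b - starRingEnd ℂ a)))
    (bP * starRingEnd ℂ G)
  have n3 := norm_add_le (((1 - (q : ℂ) ^ 2) * i ^ 2 * (bv - P0 * starRingEnd ℂ a)) +
    (((1 - (q : ℂ) ^ 2) * i ^ 2 - 1) * (P0 * starRingEnd ℂ a)) + (P0 - P1) * starRingEnd ℂ a)
    ((i - 1) * (bP * starRingEnd ℂ G + P1 * (starRingEnd ℂ b - starRingEnd ℂ a)))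
  have n4 := norm_add_le (((1 - (q : ℂ) ^ 2) * i ^ 2 * (bv - P0 * starRingEnd ℂ a)) +
    (((1 - (q : ℂ) ^ 2) * i ^ 2 - 1) * (P0 * starRingEnd ℂ a))) ((P0 - P1) * starRingEnd ℂ a)
  have n5 := norm_add_le ((1 - (q : ℂ) ^ 2) * i ^ 2 * (bv - P0 * starRingEnd ℂ a))
    (((1 - (q : ℂ) ^ 2) * i ^ 2 - 1) * (P0 * starRingEnd ℂ a))
  rw [c3] at n4
  nlinarith

/-! ### Calculus -/

theorem dir {γ : ℂ × ℂ → ℂ} {z : ℂ × ℂ} (h : DifferentiableAt ℝ γ z) (η : ℂ × ℂ) :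
    HasDerivAt (fun t : ℝ => γ (z + t • η)) (fderiv ℝ γ z η) 0 := by
  have h1 : HasDerivAt (fun t : ℝ => z + t • η) η 0 := by
    simpa using ((hasDerivAt_id (0 : ℝ)).smul_const η).const_add z
  have h2 : HasFDerivAt γ (fderiv ℝ γ z) (z + (0 : ℝ) • η) := by simpa using h.hasFDerivAt
  exact h2.comp_hasDerivAt 0 h1

theorem conjd {f : ℝ → ℂ} {f' : ℂ} {x : ℝ} (h : HasDerivAt f f' x) :
    HasDerivAt (fun t => starRingEnd ℂ (f t)) (starRingEnd ℂ f') x :=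
  (Complex.conjCLE : ℂ →L[ℝ] ℂ).hasFDerivAt.comp_hasDerivAt x h

/-- the derivative in a direction -/
theorem dirD {C₁ : ℝ} {v P1 F0 F1 Q v' : ℂ × ℂ → ℂ} {z : ℂ × ℂ} (hv : DifferentiableAt ℝ v z)
    (hP : DifferentiableAt ℝ P1 z) (hF0 : DifferentiableAt ℂ F0 z) (hF1 : DifferentiableAt ℂ F1 z)
    (hQ : ∀ w, Q w = P1 w * starRingEnd ℂ (F1 w - F0 w))
    (hv' : ∀ w, v' w = (v w + Q w) / (1 + starRingEnd ℂ (Q w) * v w / (256 * C₁) ^ 2))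
    (hD : 1 + starRingEnd ℂ (Q z) * v z / (256 * C₁) ^ 2 ≠ 0) (η : ℂ × ℂ) (Qη : ℂ)
    (hQη : Qη = fderiv ℝ P1 z η * starRingEnd ℂ (F1 z - F0 z) +
      P1 z * starRingEnd ℂ (fderiv ℂ F1 z η - fderiv ℂ F0 z η)) :
    fderiv ℝ v' z η = ((fderiv ℝ v z η + Qη) * (1 + starRingEnd ℂ (Q z) * v z / (256 * C₁) ^ 2) -
      (v z + Q z) * ((starRingEnd ℂ Qη * v z + starRingEnd ℂ (Q z) * fderiv ℝ v z η) /
        (256 * C₁) ^ 2)) / (1 + starRingEnd ℂ (Q z) * v z / (256 * C₁) ^ 2) ^ 2 := by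
  have r0 := hF0.restrictScalars ℝ
  have r1 := hF1.restrictScalars ℝ
  have e0 : fderiv ℝ F0 z η = fderiv ℂ F0 z η := by
    rw [hF0.fderiv_restrictScalars ℝ]
    rfl
  have e1 : fderiv ℝ F1 z η = fderiv ℂ F1 z η := by
    rw [hF1.fderiv_restrictScalars ℝ]
    rfl
  have hQf : Q = fun w => P1 w * starRingEnd ℂ (F1 w - F0 w) := funext hQ
  have hvf : v' = fun w => (v w + Q w) / (1 + starRingEnd ℂ (Q w) * v w / (256 * C₁) ^ 2) :=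
    funext hv'
  have hcd : ∀ {γ : ℂ × ℂ → ℂ}, DifferentiableAt ℝ γ z →
      DifferentiableAt ℝ (fun w => starRingEnd ℂ (γ w)) z := fun {γ} h =>
    (Complex.conjCLE : ℂ →L[ℝ] ℂ).differentiableAt.comp z h
  have hQd : DifferentiableAt ℝ Q z := by
    rw [hQf]
    exact hP.mul (hcd (r1.sub r0))
  have hDd : DifferentiableAt ℝ (fun w => 1 + starRingEnd ℂ (Q w) * v w / (256 * C₁) ^ 2) z := by
    have h1 := ((hcd hQd).mul hv).mul_const (((256 * C₁ : ℂ) ^ 2)⁻¹)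
    have h2 := h1.const_add (1 : ℂ)
    refine h2.congr_of_eventuallyEq (Eventually.of_forall fun w => ?_)
    simp only [Pi.mul_apply]
    rw [div_eq_mul_inv]
  have hvd : DifferentiableAt ℝ v' z := by
    rw [hvf]
    have h1 := (hv.add hQd).mul (hDd.inv hD)
    refine h1.congr_of_eventuallyEq (Eventually.of_forall fun w => ?_)
    simp only [Pi.mul_apply, Pi.add_apply, Pi.inv_apply]
    rw [div_eq_mul_inv]
  have k1 := dir hv η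
  have k2 := dir hP η
  have k3 := dir r0 η
  have k4 := dir r1 η
  rw [e0] at k3
  rw [e1] at k4
  have k5 : HasDerivAt (fun t : ℝ => Q (z + t • η)) Qη 0 := by
    have h1 := k2.fun_mul (conjd (k4.fun_sub k3))
    simp only [zero_smul, add_zero] at h1
    rw [hQη]
    refine h1.congr_of_eventuallyEq (Eventually.of_forall fun t => ?_)
    exact hQ _
  have k6 := conjd k5
  have k7 : HasDerivAt (fun t : ℝ => 1 + starRingEnd ℂ (Q (z + t • η)) * v (z + t • η) /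
      (256 * C₁) ^ 2) ((starRingEnd ℂ Qη * v z + starRingEnd ℂ (Q z) * fderiv ℝ v z η) /
        (256 * C₁) ^ 2) 0 := by
    have h1 := ((k6.fun_mul k1).div_const ((256 * C₁ : ℂ) ^ 2)).const_add (1 : ℂ)
    simp only [zero_smul, add_zero] at h1
    exact h1
  have k8 := (k1.fun_add k5).fun_div k7 (by simpa using hD)
  simp only [zero_smul, add_zero, Pi.add_apply] at k8
  have k9 := dir hvd η
  have k10 : HasDerivAt (fun t : ℝ => v' (z + t • η)) (((fderiv ℝ v z η + Qη) *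
      (1 + starRingEnd ℂ (Q z) * v z / (256 * C₁) ^ 2) -
      (v z + Q z) * ((starRingEnd ℂ Qη * v z + starRingEnd ℂ (Q z) * fderiv ℝ v z η) /
        (256 * C₁) ^ 2)) / (1 + starRingEnd ℂ (Q z) * v z / (256 * C₁) ^ 2) ^ 2) 0 := by
    refine k8.congr_of_eventuallyEq (Eventually.of_forall fun t => ?_)
    exact hv' _
  exact k9.unique k10

theorem S1 : Pool.Agent.N290.RI.S1 := by
  intro C₁ p v P0 P1 F0 F1 z ξ hC hv hP1d hF0 hF1 hvn hP0 hP1 hG hp1 hp2 Q v' hQ hv'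
  obtain ⟨bP, hbP⟩ : ∃ bP, bP = db P1 z ξ := ⟨_, rfl⟩
  obtain ⟨dP, hdP⟩ : ∃ dP, dP = dd P1 z ξ := ⟨_, rfl⟩
  have hn2 : ‖(2 : ℂ)‖ = 2 := by simp
  have hbPn : ‖bP‖ ≤ p := by
    rw [hbP]
    unfold db
    rw [norm_div, hn2, div_le_iff₀ two_pos]
    refine (norm_add_le _ _).trans ?_
    rw [norm_mul, Complex.norm_I, one_mul]
    linarith
  have hdPn : ‖dP‖ ≤ p := by
    rw [hdP]
    unfold dd
    rw [norm_div, hn2, div_le_iff₀ two_pos]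
    refine (norm_sub_le _ _).trans ?_
    rw [norm_mul, Complex.norm_I, one_mul]
    linarith
  obtain ⟨h1, h2, h3⟩ := numb C₁ p (bv := db v z ξ) (a := fderiv ℂ F0 z ξ) (b := fderiv ℂ F1 z ξ)
    hC hvn hP0 hP1 hG hbPn hdPn (hQ z) rfl
  rw [← hv' z] at h1
  refine ⟨h1, h2, ?_⟩
  have hI0 : fderiv ℂ F0 z (I • ξ) = I * fderiv ℂ F0 z ξ := by rw [map_smul, smul_eq_mul]
  have hI1 : fderiv ℂ F1 z (I • ξ) = I * fderiv ℂ F1 z ξ := by rw [map_smul, smul_eq_mul]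
  have g1 := dirD hv hP1d hF0 hF1 hQ hv' h2 ξ _ rfl
  have g2 := dirD hv hP1d hF0 hF1 hQ hv' h2 (I • ξ) _ rfl
  rw [hI0, hI1] at g2
  have key : db v' z ξ = ((db v z ξ + (bP * starRingEnd ℂ (F1 z - F0 z) +
      P1 z * (starRingEnd ℂ (fderiv ℂ F1 z ξ) - starRingEnd ℂ (fderiv ℂ F0 z ξ)))) *
      (1 + starRingEnd ℂ (Q z) * v z / (256 * C₁ : ℂ) ^ 2) -
      (v z + Q z) * ((starRingEnd ℂ (dP * starRingEnd ℂ (F1 z - F0 z)) * v z +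
        starRingEnd ℂ (Q z) * db v z ξ) / (256 * C₁ : ℂ) ^ 2)) /
      (1 + starRingEnd ℂ (Q z) * v z / (256 * C₁ : ℂ) ^ 2) ^ 2 := by
    have hdb : db v' z ξ = (fderiv ℝ v' z ξ + I * fderiv ℝ v' z (I • ξ)) / 2 := rfl
    rw [hdb, g1, g2, hbP, hdP]
    unfold db dd
    simp only [map_add, map_sub, map_mul, map_div₀, Complex.conj_I, Complex.conj_conj, map_ofNat, map_neg]
    generalize (1 + starRingEnd ℂ (Q z) * v z / (256 * C₁ : ℂ) ^ 2) = D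
    linear_combination (-(P1 z * (starRingEnd ℂ (fderiv ℂ F1 z ξ) - starRingEnd ℂ (fderiv ℂ F0 z ξ)) *
      D * (D ^ 2)⁻¹) / 2 - (v z + Q z) * v z * (((256 * C₁ : ℂ) ^ 2)⁻¹) * (D ^ 2)⁻¹ *
      starRingEnd ℂ (P1 z) * (fderiv ℂ F1 z ξ - fderiv ℂ F0 z ξ) / 2) * Complex.I_sq
  rw [key]
  exact h3

end Pool.Agent.N755.RI
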